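import Mathlib

set_option autoImplicit false
open MeasureTheory ProbabilityTheory Finset Filter Topology
open scoped ENNReal

namespace Pool.Agent.H.MP_63bd8a_pr

def fl {n : ℕ} (i : Fin n) (b : Fin n → Bool) : Fin n → Bool := Function.update b i (!b i)

lemma sum_succ {n : ℕ} (F : (Fin (n+1) → Bool) → ℝ) :
    ∑ b, F b = ∑ b : Fin n → Bool, F (Fin.cons false b) + ∑ b : Fin n → Bool, F (Fin.cons true b) := by
  rw [← (Fin.consEquiv (fun _ : Fin (n+1) => Bool)).sum_comp, Fintype.sum_prod_type]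
  simp [Fin.consEquiv, add_comm]

lemma fl_zero {n : ℕ} (a : Bool) (b : Fin n → Bool) :
    fl 0 (Fin.cons a b : Fin (n+1) → Bool) = Fin.cons (!a) b := by
  simp [fl]

lemma fl_succ {n : ℕ} (a : Bool) (b : Fin n → Bool) (i : Fin n) :
    fl i.succ (Fin.cons a b : Fin (n+1) → Bool) = Fin.cons a (fl i b) := by
  simp [fl, Fin.cons_update]

lemma es (n : ℕ) : ∀ F : (Fin n → Bool) → ℝ,
    2 ^ n * ∑ b, F b ^ 2 - (∑ b, F b) ^ 2 ≤ 2 ^ n / 4 * ∑ i, ∑ b, (F b - F (fl i b)) ^ 2 := by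
  induction n with
  | zero => intro F; simp
  | succ n ih =>
    intro F
    have h0 := ih (fun b => F (Fin.cons false b))
    have h1 := ih (fun b => F (Fin.cons true b))
    have h2 := sq_sum_le_card_mul_sum_sq (s := (univ : Finset (Fin n → Bool)))
      (f := fun b => F (Fin.cons false b) - F (Fin.cons true b))
    rw [sum_sub_distrib] at h2
    simp only [card_univ, Fintype.card_pi, Fintype.card_bool, prod_const, Fintype.card_fin,
      Nat.cast_pow, Nat.cast_ofNat] at h2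
    rw [Fin.sum_univ_succ]
    simp only [sum_succ, fl_zero, fl_succ, sum_add_distrib, Bool.not_false, Bool.not_true]
    have h3 : ∑ b : Fin n → Bool, (F (Fin.cons true b) - F (Fin.cons false b)) ^ 2 =
        ∑ b : Fin n → Bool, (F (Fin.cons false b) - F (Fin.cons true b)) ^ 2 :=
      sum_congr rfl fun b _ => by ring
    rw [h3, pow_succ (2:ℝ) n]
    nlinarith

lemma fl_fl {n : ℕ} (i : Fin n) (b : Fin n → Bool) : fl i (fl i b) = b := by
  simp [fl]

lemma es_pos (n : ℕ) (F : (Fin n → Bool) → ℝ) (i : Fin n) :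
    ∑ b, (F b - F (fl i b)) ^ 2 = 2 * ∑ b, (max (F b - F (fl i b)) 0) ^ 2 := by
  have h : ∑ b, (max (F b - F (fl i b)) 0) ^ 2 = ∑ b, (max (F (fl i b) - F b) 0) ^ 2 := by
    rw [← Equiv.sum_comp (Function.Involutive.toPerm (fl i) (fl_fl i))]
    simp [fl_fl]
  rw [two_mul]
  nth_rewrite 2 [h]
  rw [← sum_add_distrib]
  refine sum_congr rfl fun b _ => ?_
  rcases le_total (F b) (F (fl i b)) with h | h
  · rw [max_eq_right (by linarith), max_eq_left (by linarith)]; ring
  · rw [max_eq_left (by linarith), max_eq_right (by linarith)]; ring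

abbrev E (n : ℕ) := EuclideanSpace ℝ (Fin n)

noncomputable def sl {n : ℕ} (g : E n → ℝ) (x : E n) : ℝ≥0∞ :=
  Filter.limsup (fun y => ENNReal.ofReal (|g y - g x| / dist y x)) (nhdsWithin x {x}ᶜ)

lemma slope {n : ℕ} {g : E n → ℝ} (hg : ConvexOn ℝ Set.univ g) (x z : E n) :
    ENNReal.ofReal ((g x - g z) / ‖z - x‖) ≤ sl g x := by
  by_cases hz : z - x = 0
  · simp [hz]
  have hn : 0 < ‖z - x‖ := norm_pos_iff.2 hz
  have ht : Tendsto (fun h : ℝ => x + h • (z - x)) (𝓝[>] 0) (𝓝[≠] x) := by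
    refine tendsto_nhdsWithin_iff.2 ⟨?_, ?_⟩
    · have : Continuous (fun h : ℝ => x + h • (z - x)) := by fun_prop
      simpa using (this.tendsto 0).mono_left nhdsWithin_le_nhds
    · filter_upwards [self_mem_nhdsWithin] with h hh
      have : h ≠ 0 := (Set.mem_Ioi.1 hh).ne'
      simp [this, hz]
  refine le_limsup_of_frequently_le' (ht.frequently (Eventually.frequently ?_))
  filter_upwards [Ioo_mem_nhdsGT (zero_lt_one' ℝ)] with h hh
  refine ENNReal.ofReal_le_ofReal ?_
  have h1 := hg.2 (Set.mem_univ x) (Set.mem_univ z) (show 0 ≤ 1 - h by linarith [hh.2])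
    hh.1.le (by ring)
  have h2 : (1 - h) • x + h • z = x + h • (z - x) := by module
  rw [h2] at h1
  simp only [smul_eq_mul] at h1
  rw [dist_eq_norm, add_sub_cancel_left, norm_smul, Real.norm_of_nonneg hh.1.le,
    div_le_div_iff₀ hn (mul_pos hh.1 hn)]
  have h3 : h * (g x - g z) ≤ |g (x + h • (z - x)) - g x| := by
    rw [abs_sub_comm]; refine le_trans ?_ (le_abs_self _); linarith
  nlinarith

noncomputable def pt {n : ℕ} (b : Fin n → Bool) : E n :=
  WithLp.toLp 2 (fun i => if b i then 1 else -1)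

lemma norm_pt {n : ℕ} (b : Fin n → Bool) : ‖pt b‖ = √n := by
  rw [EuclideanSpace.norm_eq]
  congr 1
  have : ∀ i, ‖pt b i‖ ^ 2 = 1 := fun i => by simp only [pt]; split_ifs <;> simp
  simp only [this]; simp

lemma slope2 {n : ℕ} {g : E n → ℝ} (hg : ConvexOn ℝ Set.univ g) (b : Fin n → Bool) :
    ENNReal.ofReal (√(∑ i, (max (g (pt b) - g (pt (fl i b))) 0) ^ 2) / 2) ≤ sl g (pt b) := by
  set a : Fin n → ℝ := fun i => max (g (pt b) - g (pt (fl i b))) 0 with ha
  have ha0 : ∀ i, 0 ≤ a i := fun i => le_max_right _ _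
  by_cases hs : ∑ i, a i = 0
  · have := (sum_eq_zero_iff_of_nonneg (fun i _ => ha0 i)).1 hs
    have h2 : ∑ i, a i ^ 2 = 0 := sum_eq_zero fun i hi => by rw [this i hi]; ring
    simp only [ha] at h2
    simp [h2]
  have hs0 : 0 < ∑ i, a i := lt_of_le_of_ne (sum_nonneg fun i _ => ha0 i) (Ne.symm hs)
  set s := ∑ i, a i with hsd
  set z : E n := ∑ i, (a i / s) • pt (fl i b) with hz
  have h1 : g z ≤ ∑ i, (a i / s) * g (pt (fl i b)) :=
    hg.map_sum_le (fun i _ => div_nonneg (ha0 i) hs0.le) (by rw [← sum_div, div_self hs0.ne'])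
      (fun _ _ => Set.mem_univ _)
  have h2 : (∑ i, a i ^ 2) / s ≤ g (pt b) - g z := by
    have : g (pt b) = ∑ i, (a i / s) * g (pt b) := by
      rw [← sum_mul, ← sum_div, div_self hs0.ne', one_mul]
    rw [this, sum_div]
    refine le_trans (le_of_eq ?_) (sub_le_sub_left h1 _)
    rw [← sum_sub_distrib]
    refine sum_congr rfl fun i _ => ?_
    rw [← mul_sub]
    rcases le_total (g (pt b) - g (pt (fl i b))) 0 with h | h
    · have : a i = 0 := max_eq_right h
      simp [this]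
    · have : a i = g (pt b) - g (pt (fl i b)) := max_eq_left h
      rw [← this]; ring
  have h3 : ‖z - pt b‖ = 2 * √(∑ i, a i ^ 2) / s := by
    have : ∀ j, ‖(z - pt b) j‖ ^ 2 = (2 / s) ^ 2 * a j ^ 2 := fun j => by
      have e1 : pt b j = ∑ i, (a i / s) * pt b j := by
        rw [← sum_mul, ← sum_div, div_self hs0.ne', one_mul]
      have e2 : (z - pt b) j = (a j / s) * (pt (fl j b) j - pt b j) := by
        simp only [hz, PiLp.sub_apply, WithLp.ofLp_sum, WithLp.ofLp_smul, Finset.sum_apply,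
          Pi.smul_apply, smul_eq_mul]
        rw [e1, ← sum_sub_distrib, sum_eq_single j]
        · rw [← e1]; ring
        · intro i _ hij
          simp [pt, fl, Function.update_of_ne hij.symm]
        · simp
      rw [e2, Real.norm_eq_abs, sq_abs]
      simp only [pt, fl, Function.update_self]
      cases b j <;> simp <;> ring
    rw [EuclideanSpace.norm_eq]
    simp only [this]
    rw [← mul_sum, Real.sqrt_mul (sq_nonneg _), Real.sqrt_sq (by positivity)]
    ring
  refine le_trans (ENNReal.ofReal_le_ofReal ?_) (slope hg (pt b) z)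
  change √(∑ i, a i ^ 2) / 2 ≤ _
  by_cases hq : √(∑ i, a i ^ 2) = 0
  · rw [h3, hq]; simp
  have hq0 : 0 < √(∑ i, a i ^ 2) := lt_of_le_of_ne (Real.sqrt_nonneg _) (Ne.symm hq)
  rw [h3, le_div_iff₀ (by positivity)]
  refine le_trans (le_of_eq ?_) h2
  have := Real.mul_self_sqrt (x := ∑ i, a i ^ 2) (sum_nonneg fun i _ => sq_nonneg _)
  field_simp
  nlinarith

lemma jensen0 {n : ℕ} {g : E n → ℝ} (hg : ConvexOn ℝ Set.univ g) :
    2 ^ n * g 0 ≤ ∑ b : Fin n → Bool, g (pt b) := by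
  have inv : Function.Involutive (fun b : Fin n → Bool => fun i => !b i) := fun b => by simp
  have h1 : ∑ b : Fin n → Bool, g (pt b) = ∑ b : Fin n → Bool, g (pt fun i => !b i) :=
    (Equiv.sum_comp (Function.Involutive.toPerm _ inv) (fun b => g (pt b))).symm
  have h2 : ∀ b : Fin n → Bool, 2 * g 0 ≤ g (pt b) + g (pt fun i => !b i) := fun b => by
    have := hg.2 (Set.mem_univ (pt b)) (Set.mem_univ (pt fun i => !b i))
      (show (0:ℝ) ≤ 1/2 by norm_num) (show (0:ℝ) ≤ 1/2 by norm_num) (by norm_num)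
    have e : (1/2:ℝ) • pt b + (1/2:ℝ) • (pt fun i => !b i) = 0 := by
      ext i; simp only [pt, PiLp.add_apply, PiLp.smul_apply]; cases b i <;> simp
    rw [e] at this; simp only [smul_eq_mul] at this; linarith
  have h3 := sum_le_sum (s := univ) fun b _ => h2 b
  rw [sum_add_distrib, ← h1] at h3
  simp only [sum_const, card_univ, Fintype.card_pi, Fintype.card_bool, prod_const,
    Fintype.card_fin, nsmul_eq_mul, Nat.cast_pow, Nat.cast_ofNat] at h3
  linarith

/-- the real core -/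
lemma core {n : ℕ} (hn : 1 ≤ n) {g : E n → ℝ} (hg : ConvexOn ℝ Set.univ g) :
    ∃ (c : ℝ) (l : (Fin n → Bool) → ℝ), (∀ b, 0 ≤ l b ∧ ENNReal.ofReal (l b) ≤ sl g (pt b)) ∧
      1 / (n + 1) * (g 0 - c) ^ 2 + ∑ b, n / (n + 1) / 2 ^ n * (g (pt b) - c) ^ 2 ≤
        3 * ∑ b, n / (n + 1) / 2 ^ n * l b ^ 2 := by
  set u : (Fin n → Bool) → ℝ := fun b => √(∑ i, (max (g (pt b) - g (pt (fl i b))) 0) ^ 2) / 2
    with hu
  set v : (Fin n → Bool) → ℝ := fun b => (g (pt b) - g 0) / √n with hv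
  have hn0 : (0:ℝ) < n := by exact_mod_cast hn
  have hs : 0 < √(n:ℝ) := Real.sqrt_pos.2 hn0
  have hN : (0:ℝ) < 2 ^ n := by positivity
  have hu0 : ∀ b, 0 ≤ u b := fun b => by positivity
  refine ⟨(∑ b, g (pt b)) / 2 ^ n, fun b => max (u b) (v b), fun b => ⟨le_max_of_le_left (hu0 b), ?_⟩, ?_⟩
  · rcases le_total (u b) (v b) with h | h
    · simp only [max_eq_right h]
      have := slope hg (pt b) 0
      rwa [zero_sub, norm_neg, norm_pt] at this
    · simp only [max_eq_left h]; exact slope2 hg b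
  set L := ∑ b, (max (u b) (v b)) ^ 2 with hL
  set S := ∑ b, g (pt b) with hS
  have h1 : ∑ b, (g (pt b) - S / 2 ^ n) ^ 2 ≤ 2 * L := by
    have e1 := es n (fun b => g (pt b))
    simp only [es_pos n (fun b => g (pt b))] at e1
    rw [← mul_sum, sum_comm] at e1
    have e2 : ∑ b, ∑ i, (max (g (pt b) - g (pt (fl i b))) 0) ^ 2 ≤ 4 * L := by
      rw [hL, mul_sum]
      refine sum_le_sum fun b _ => ?_
      have a1 := Real.sq_sqrt (x := ∑ i, (max (g (pt b) - g (pt (fl i b))) 0) ^ 2)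
        (sum_nonneg fun i _ => sq_nonneg _)
      have a2 : u b ^ 2 ≤ (max (u b) (v b)) ^ 2 := by gcongr; exact le_max_left _ _
      simp only [hu, div_pow] at a2 ⊢
      linarith
    have e3 : ∑ b, (g (pt b) - S / 2 ^ n) ^ 2 = (2 ^ n * ∑ b, g (pt b) ^ 2 - S ^ 2) / 2 ^ n := by
      simp only [sub_sq, sum_add_distrib, sum_sub_distrib, ← sum_mul, ← mul_sum, ← hS]
      simp only [sum_const, card_univ, Fintype.card_pi, Fintype.card_bool, prod_const,
        Fintype.card_fin, nsmul_eq_mul, Nat.cast_pow, Nat.cast_ofNat]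
      field_simp; ring
    rw [e3, div_le_iff₀ hN]
    nlinarith
  have h2 : (g 0 - S / 2 ^ n) ^ 2 ≤ n * (L / 2 ^ n) := by
    have e0 := jensen0 hg
    have e1 : S - 2 ^ n * g 0 ≤ √n * ∑ b, max (u b) (v b) := by
      have : S - 2 ^ n * g 0 = ∑ b : Fin n → Bool, (g (pt b) - g 0) := by
        simp [hS, sum_sub_distrib]
      rw [this, mul_sum]
      refine sum_le_sum fun b _ => ?_
      have := le_max_right (u b) (v b)
      rw [hv] at this; simp only at this
      rw [div_le_iff₀ hs] at this; linarith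
    have e2 := sq_sum_le_card_mul_sum_sq (s := (univ : Finset (Fin n → Bool)))
      (f := fun b => max (u b) (v b))
    simp only [card_univ, Fintype.card_pi, Fintype.card_bool, prod_const, Fintype.card_fin,
      Nat.cast_pow, Nat.cast_ofNat] at e2
    have e3 : (S - 2 ^ n * g 0) ^ 2 ≤ n * (2 ^ n * L) := by
      calc _ ≤ (√n * ∑ b, max (u b) (v b)) ^ 2 := by gcongr
        _ = n * (∑ b, max (u b) (v b)) ^ 2 := by rw [mul_pow, Real.sq_sqrt hn0.le]
        _ ≤ _ := by gcongr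
    have e4 : (g 0 - S / 2 ^ n) ^ 2 = (S - 2 ^ n * g 0) ^ 2 / (2 ^ n) ^ 2 := by
      rw [← neg_sq (g 0 - _)]; field_simp; ring
    rw [e4, div_le_iff₀ (by positivity)]
    refine e3.trans (le_of_eq ?_); field_simp
  rw [← mul_sum, ← mul_sum]
  have h3 : 1 / ((n:ℝ) + 1) * (g 0 - S / 2 ^ n) ^ 2 ≤ n / (n + 1) / 2 ^ n * L := by
    calc _ ≤ 1 / ((n:ℝ) + 1) * (n * (L / 2 ^ n)) := by gcongr
      _ = _ := by field_simp
  have h4 : (0:ℝ) ≤ n / (n + 1) / 2 ^ n := by positivity
  nlinarith [mul_le_mul_of_nonneg_left h1 h4]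

noncomputable def mu (n : ℕ) : Measure (E n) :=
  ENNReal.ofReal (1 / (n + 1)) • Measure.dirac 0 +
    ∑ b : Fin n → Bool, ENNReal.ofReal (n / (n + 1) / 2 ^ n) • Measure.dirac (pt b)

lemma lint (n : ℕ) (F : E n → ℝ≥0∞) : ∫⁻ x, F x ∂mu n = ENNReal.ofReal (1 / (n + 1)) * F 0 +
    ∑ b : Fin n → Bool, ENNReal.ofReal (n / (n + 1) / 2 ^ n) * F (pt b) := by
  simp [mu, lintegral_add_measure, lintegral_finsetSum_measure, lintegral_smul_measure,
    lintegral_dirac]

lemma lint_real (n : ℕ) (F : E n → ℝ) (hF : ∀ x, 0 ≤ F x) :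
    ∫⁻ x, ENNReal.ofReal (F x) ∂mu n =
      ENNReal.ofReal (1 / (n + 1) * F 0 + ∑ b : Fin n → Bool, n / (n + 1) / 2 ^ n * F (pt b)) := by
  rw [lint, ENNReal.ofReal_add (mul_nonneg (by positivity) (hF _))
    (sum_nonneg fun b _ => mul_nonneg (by positivity) (hF _)),
    ENNReal.ofReal_sum_of_nonneg fun b _ => mul_nonneg (by positivity) (hF _),
    ENNReal.ofReal_mul (by positivity)]
  congr 1
  exact sum_congr rfl fun b _ => (ENNReal.ofReal_mul (by positivity)).symm

lemma wsum (n : ℕ) : ∑ _b : Fin n → Bool, (n:ℝ) / (n + 1) / 2 ^ n = n / (n + 1) := by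
  simp only [sum_const, card_univ, Fintype.card_pi, Fintype.card_bool, prod_const,
    Fintype.card_fin, nsmul_eq_mul, Nat.cast_pow, Nat.cast_ofNat]
  field_simp

instance (n : ℕ) : IsProbabilityMeasure (mu n) := ⟨by
  have := lint_real n (fun _ => 1) (fun _ => zero_le_one)
  simp only [ENNReal.ofReal_one, lintegral_one, mul_one, wsum] at this
  rw [this, ← add_div, add_comm, div_self (by positivity), ENNReal.ofReal_one]⟩

lemma poin {n : ℕ} (hn : 1 ≤ n) {g : E n → ℝ} (hg : ConvexOn ℝ Set.univ g) (hc : Continuous g) :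
    evariance g (mu n) ≤ ENNReal.ofReal 3 * ∫⁻ x, sl g x ^ 2 ∂mu n := by
  obtain ⟨c, l, hl, h⟩ := core hn hg
  have hfin : ∀ c : ℝ, ∫⁻ x, ‖g x - c‖ₑ ^ 2 ∂mu n = ENNReal.ofReal
      (1 / (n + 1) * (g 0 - c) ^ 2 + ∑ b, n / (n + 1) / 2 ^ n * (g (pt b) - c) ^ 2) := fun c => by
    rw [← lint_real n (fun x => (g x - c) ^ 2) (fun x => sq_nonneg _)]
    refine lintegral_congr fun x => ?_
    rw [← ofReal_norm, ← ENNReal.ofReal_pow (norm_nonneg _), Real.norm_eq_abs, sq_abs]
  have hm : MemLp (fun x => g x - c) 2 (mu n) := by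
    refine ⟨(hc.sub continuous_const).aestronglyMeasurable, ?_⟩
    rw [eLpNorm_lt_top_iff_lintegral_rpow_enorm_lt_top (by norm_num) (by norm_num)]
    simp only [ENNReal.toReal_ofNat, ENNReal.rpow_ofNat]
    rw [hfin]; exact ENNReal.ofReal_lt_top
  have hm2 : MemLp g 2 (mu n) := by
    have := hm.add (memLp_const c)
    rwa [show ((fun x => g x - c) + fun _ => c) = g from funext fun x => by simp] at this
  have h1 : evariance g (mu n) ≤ ∫⁻ x, ‖g x - c‖ₑ ^ 2 ∂mu n := by
    rw [← hm2.ofReal_variance_eq, ← variance_sub_const hm2.1 c]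
    refine (ENNReal.ofReal_le_ofReal (variance_le_expectation_sq hm.1)).trans (le_of_eq ?_)
    simp only [Pi.pow_apply]
    rw [ofReal_integral_eq_lintegral_ofReal hm.integrable_sq (ae_of_all _ fun x => sq_nonneg _)]
    refine lintegral_congr fun x => ?_
    rw [← ofReal_norm, ← ENNReal.ofReal_pow (norm_nonneg _), Real.norm_eq_abs, sq_abs]
  refine h1.trans ?_
  rw [hfin]
  refine (ENNReal.ofReal_le_ofReal h).trans ?_
  rw [ENNReal.ofReal_mul (by norm_num), lint]
  gcongr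
  refine le_trans ?_ le_add_self
  rw [ENNReal.ofReal_sum_of_nonneg fun b _ => by positivity]
  refine sum_le_sum fun b _ => ?_
  rw [ENNReal.ofReal_mul (by positivity), ENNReal.ofReal_pow (hl b).1]
  gcongr
  exact (hl b).2

lemma meas (n : ℕ) (s : Set (E n)) (hs : MeasurableSet s) :
    ((0 : E n) ∈ s → ENNReal.ofReal (1 / (n + 1)) ≤ mu n s) ∧
    ((∀ b, pt b ∈ s) → ENNReal.ofReal (n / (n + 1)) ≤ mu n s) := by
  rw [← lintegral_indicator_one hs, lint]
  constructor
  · intro h; simp [h]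
  · intro h
    refine le_trans (le_of_eq ?_) le_add_self
    simp only [Set.indicator_of_mem (h _), Pi.one_apply, mul_one]
    rw [← ENNReal.ofReal_sum_of_nonneg fun b _ => by positivity, wsum]

lemma big (c : ℝ) (hc : 0 < c) : ∃ n : ℕ, 1 ≤ n ∧ 2 * Real.exp (-(c * √n)) < 1 / (n + 1) := by
  have h := (Real.tendsto_pow_mul_exp_neg_atTop_nhds_zero 2).comp
    (((Real.tendsto_sqrt_atTop.comp tendsto_natCast_atTop_atTop).const_mul_atTop hc))
  have h2 := h.eventually (gt_mem_nhds (show (0:ℝ) < c ^ 2 / 4 by positivity))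
  obtain ⟨n, hn, h1⟩ := (h2.and (eventually_ge_atTop 1)).exists
  refine ⟨n, h1, ?_⟩
  have hn1 : (1:ℝ) ≤ n := by exact_mod_cast h1
  simp only [Function.comp, mul_pow, Real.sq_sqrt (show (0:ℝ) ≤ n by positivity)] at hn
  rw [lt_div_iff₀ (by positivity)]
  have he := Real.exp_pos (-(c * √n))
  have : (n:ℝ) * Real.exp (-(c * √n)) < 1 / 4 := by
    have hc2 : 0 < c ^ 2 := by positivity
    nlinarith
  nlinarith

end Pool.Agent.H.MP_63bd8a_pr
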